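import Pool.Agent.J6H85.LR.Main

/-!
# Simplicity of the group of Hamiltonian homeomorphisms and bounded fragmentation

`HamGroup n` is the group of the compactly supported Hamiltonian homeomorphisms of the open unit ball
of `ℝ^{2n}` (definitions in `HomogeneousQuasimorphisms.lean`, the same as in the frozen statement
S13311). For
`0 < t ≤ 1` let `Sh n t` be its subgroup of the Hamiltonian homeomorphisms of the concentric ball of
radius `t` (`Pool/Agent/J6H85/LR/Pub.lean`, where the conditions of the theorem are defined).

In dimension two Le Roux proved (2010) that the simplicity of the group of compactly supported area
preserving homeomorphisms of the disc is equivalent to a bounded fragmentation property: every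
element supported in a disc is a product of at most `m` elements supported in discs of half the
area, with a constant `m`. We prove an equivalence of this kind in all dimensions. In dimensions at
least four fragmentation itself is not known for Hamiltonian homeomorphisms; so the group is simple
if and only if it has the fragmentation property and the bounded fragmentation property, and
bounded fragmentation is equivalent to the simplicity of the group generated by the elements with
small supports.

Proof of bounded fragmentation implies perfectness at small scale: write `g` in the ball of
radius `r` as a product of `m` commutators and of one element `g₁` of the ball of radius `s`, which
is again a rescaled element of the ball of radius `r`, and so on. Place the rescaled `g, g₁, g₂, …`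
in disjoint balls with radii `τ (s / r)^j`. Their product is in the group, and it is a product of `m`
commutators (of infinite products) and of the product of the `g₁, g₂, …` in the smaller balls; this
one is conjugate to the product of the rescaled `g₁, g₂, …` in the balls number `1, 2, …`. So the
rescaled `g` is a product of `m + 1` commutators. The converse is proved by a separation of scales:
elements which need many factors at scale `σ_k` are placed in disjoint balls of radii `> σ_k`
such that the balls which follow are contained in one ball of radius `σ_k`.
-/

set_option autoImplicit false

namespace Pool.Agent.Results.MP_68f289_gt.BoundedFragmentation

open Pool.Agent.J6H85.Frag
open Pool.Agent.Results.MP_68f289_gt.HomogeneousQuasimorphisms (HamGroup)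

/-- Let `n ≥ 1` and let `G = HamGroup n` be the group of compactly supported Hamiltonian
homeomorphisms of the open unit ball of `ℝ^{2n}`.

(1) The following are equivalent, where `r` and `s` are radii in `(0, 1]`:
* bounded fragmentation: for some `s < r` and `m` all elements of `Sh n r` are products of at most
  `m` conjugates of elements of `Sh n s`;
* for some `r` and every `s` there is such an `m`;
* for some `r` the elements of `Sh n r` are products of commutators of elements of `G`;
* for some `r` they are products of two commutators;
* for some `r` they belong to every nontrivial normal subgroup of `G`;
* for some `r` and every `g ≠ 1` in `G` there is `k` such that they are products of at most `k`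
  conjugates of `g` and `g⁻¹`;
* for some `r` the normal closure of `Sh n r` in `G` is a simple group;
* for some `r` the set `Sh n r` is contained in the normal closure of a countable set of elements
  which belong to the normal closure of `Sh n s` for all `s`;
* for some `r` there are `σ_j → 0` and integers `f_j` such that for every `φ` in `Sh n r` there is
  `C` such that `φ` is a product of at most `C f_j` conjugates of elements of `Sh n σ_j`, for all
  `j`.

(2) `G` is simple if and only if it has fragmentation and bounded fragmentation.

(3) If `G` has fragmentation then it is simple if and only if it is the normal closure of some
countable subset. -/
theorem result (n : ℕ) (hn : 0 < n) :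
    List.TFAE [BoundedFragmentation n, BoundedAtAllScales n, LocallyPerfect n,
      LocallyTwoCommutators n, InAllNormalSubgroups n, LocallyUniformlySimple n, SimpleClosure n,
      LocallyCountablyGenerated n, CommonGrowth n] ∧
    (IsSimpleGroup (HamGroup n) ↔ BoundedFragmentation n ∧ Fragmentation n) ∧
    (Fragmentation n → (IsSimpleGroup (HamGroup n) ↔
      ∃ A : Set (HamGroup n), A.Countable ∧ Subgroup.normalClosure A = ⊤)) :=
  main n hn

end Pool.Agent.Results.MP_68f289_gt.BoundedFragmentation
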