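import Pool.Agent.J6H85.NS.Main

/-!
# A dichotomy for the normal subgroups of the group of Hamiltonian homeomorphisms of the ball

`G = HamGroup n` is the group of the compactly supported Hamiltonian homeomorphisms of the open unit
ball of `ℝ^{2n}` (`HomogeneousQuasimorphisms.lean`, the same as in the frozen statement S13311) and
`Sh n s` is the group of the Hamiltonian homeomorphisms of the concentric open ball of radius `s`
(`Pool/Agent/J6H85/LR/Pub.lean`). `UniformlySimple` is in `Pool/Agent/J6H85/NS/Pub.lean`.

If `G` is not simple, it is far from simple: it has a chain of normal subgroups isomorphic to the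
real line, it is the union of an increasing sequence of proper normal subgroups, so it is not the
normal closure of a finite set, neither the ascending nor the descending chain condition holds
for its normal subgroups, and it has a nontrivial normal subgroup with a quotient of the cardinality
of the continuum. In other words each of these finiteness conditions is equivalent to
simplicity. There are two sources of normal subgroups. If `G` is not the normal closure of `Sh n s`
for one `s < 1`, the normal closures of the groups `Sh n s`, `τ ≤ s ≤ 1`, are pairwise different, and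
the chain jumps at each `s > τ`: its member at `s` has index at least the continuum in the
intersection of the next ones. If `G` is not perfect, the set of all subsets of `ℝ` embeds in the
ordered set of the normal subgroups which contain the commutator subgroup.

Proof. (a) `G` is the union of the groups `Sh n s`, `s < 1`. This is not obvious, since `φ ∈ G` is a
limit of Hamiltonian diffeomorphisms `u` supported in one compact set whose Hamiltonians may have
larger supports. Let `u` be the identity outside a small ball. The path of the conjugates of `u` by
the dilations is a Hamiltonian isotopy with support in the small balls: its Hamiltonian is found from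
the action function `A`, `dA = u^* λ - λ`, a cocycle over the flow (`NS/Act2.lean`, `NS/Alx.lean`).
(b) The dilations act on the normal closures `N s` of `Sh n s`; by (a) `N s = N s'` for one pair
`s < s'` implies that `N` is constant on `(0, s']`. (c) By a Baire category argument
(`Pool/Agent/J6H85/ZO/`) the abelianization of `G` is trivial or has at least continuum many elements.
An abelian group of this size maps to a direct sum of copies of `ℚ / ℤ` indexed by `ℝ` such that the
image meets each summand (`NS/Ab.lean`). (d) `G` is simple if and only if it is perfect and `N s = G`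
for all `s`. (e) The jumps: by (a) `N s` is the union of the `N s''`, `s'' < s`, which are
meagre in the group of the homeomorphisms supported in the closed ball of radius `s` (otherwise
`N s'' = N s`), and a meagre subgroup has at least continuum many cosets (`NS/Jump.lean`).
-/

set_option autoImplicit false

namespace Pool.Agent.Results.MP_68f289_gt.NormalSubgroupDichotomy

open Pool.Agent.J6H85.Frag (Sh)
open Pool.Agent.J6H85.NS (UniformlySimple)
open Pool.Agent.Results.MP_68f289_gt.HomogeneousQuasimorphisms (HamGroup)
open Cardinal (mk continuum)
open Subgroup (normalClosure)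

/-- Let `n ≥ 1` and let `G = HamGroup n` be the group of compactly supported Hamiltonian
homeomorphisms of the open unit ball of `ℝ^{2n}`.

(1) The following are equivalent: `G` is simple; `G` is the normal closure of one element; `G` is the
normal closure of a finite set; `G` is the normal closure of a set of fewer than continuum many
elements of `Sh n s` for some `s < 1`; `G` is perfect and the normal closure of `Sh n s` for some
`s < 1`; `G` is not the union of an increasing sequence of proper normal subgroups; one proper normal
subgroup contains all proper normal subgroups; the normal subgroups satisfy the ascending chain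
condition; they satisfy the descending chain condition; there are fewer than continuum many normal
subgroups; there is no strictly increasing map from `ℝ` to the normal subgroups; every nontrivial
normal subgroup has index less than the continuum; `UniformlySimple n`; every conjugation
invariant function `ν` with `ν (φ ψ⁻¹) ≤ max (ν φ) (ν ψ)` is bounded above.

(2) There is a threshold `0 ≤ τ ≤ 1` such that for `0 < s < s' ≤ 1` the normal closures of `Sh n s`
and `Sh n s'` are equal if and only if `s' ≤ τ`, and `τ = 1` if and only if `G` is the normal closure
of `Sh n s` for some `s < 1`; if `τ < s < 1`, the normal closure of `Sh n s` has index at least the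
continuum in the intersection of the normal closures of the groups `Sh n s'`, `s < s' ≤ 1`.

(3) If `G` is not perfect, there is an order embedding of the set of the subsets of `ℝ` into the set
of the normal subgroups which contain the commutator subgroup. -/
theorem result (n : ℕ) (hn : 0 < n) :
    List.TFAE [IsSimpleGroup (HamGroup n),
      ∃ g : HamGroup n, normalClosure {g} = ⊤,
      ∃ A : Set (HamGroup n), A.Finite ∧ normalClosure A = ⊤,
      ∃ s : ℝ, 0 < s ∧ s < 1 ∧ ∃ A : Set (HamGroup n), A ⊆ Sh n s ∧ mk A < continuum ∧
        normalClosure A = ⊤,
      commutator (HamGroup n) = ⊤ ∧ ∃ s : ℝ, 0 < s ∧ s < 1 ∧ normalClosure (Sh n s) = ⊤,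
      ∀ N : ℕ → Subgroup (HamGroup n), (∀ k, (N k).Normal) → Monotone N →
        (∀ φ, ∃ k, φ ∈ N k) → ∃ k, N k = ⊤,
      ∃ M : Subgroup (HamGroup n), M.Normal ∧ M ≠ ⊤ ∧
        ∀ N : Subgroup (HamGroup n), N.Normal → N ≠ ⊤ → N ≤ M,
      ∀ N : ℕ → Subgroup (HamGroup n), (∀ k, (N k).Normal) → Monotone N →
        ∃ k, ∀ m, k ≤ m → N m = N k,
      ∀ N : ℕ → Subgroup (HamGroup n), (∀ k, (N k).Normal) → Antitone N →
        ∃ k, ∀ m, k ≤ m → N m = N k,
      mk {N : Subgroup (HamGroup n) // N.Normal} < continuum,
      ¬ ∃ c : ℝ → Subgroup (HamGroup n), StrictMono c ∧ ∀ r, (c r).Normal,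
      ∀ N : Subgroup (HamGroup n), N.Normal → N ≠ ⊥ → mk (HamGroup n ⧸ N) < continuum,
      UniformlySimple n,
      ∀ ν : HamGroup n → ℝ, (∀ φ ψ, ν (φ * ψ⁻¹) ≤ max (ν φ) (ν ψ)) →
        (∀ φ ψ, ν (ψ * φ * ψ⁻¹) = ν φ) → ∃ C, ∀ φ, ν φ ≤ C] ∧
    (∃ τ : ℝ, 0 ≤ τ ∧ τ ≤ 1 ∧ (∀ s s' : ℝ, 0 < s → s < s' → s' ≤ 1 →
        (normalClosure (Sh n s) = normalClosure (Sh n s') ↔ s' ≤ τ)) ∧
      (τ = 1 ↔ ∃ s : ℝ, 0 < s ∧ s < 1 ∧ normalClosure (Sh n s) = ⊤) ∧
      (∀ s : ℝ, 0 < s → τ < s → s < 1 →
        continuum ≤ mk ((⨅ s' : Set.Ioc s 1, normalClosure (Sh n s') : Subgroup (HamGroup n)) ⧸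
          (normalClosure (Sh n s)).subgroupOf
            (⨅ s' : Set.Ioc s 1, normalClosure (Sh n s'))))) ∧
    (commutator (HamGroup n) ≠ ⊤ → ∃ c : Set ℝ → Subgroup (HamGroup n), (∀ A, (c A).Normal) ∧
      (∀ A, commutator (HamGroup n) ≤ c A) ∧ ∀ A B, c A ≤ c B ↔ A ⊆ B) :=
  Pool.Agent.J6H85.NS.main n hn

end Pool.Agent.Results.MP_68f289_gt.NormalSubgroupDichotomy
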