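import Pool.Agent.J6H96.SI.Fin
import Pool.Agent.R773.HN.Defs3

/-!
# Subgroups of small index of the group of Hamiltonian homeomorphisms of the ball

Definitions: `Pool/Agent/R773/HN/Defs.lean`, `Pool/Agent/R773/HN/Defs3.lean` (`FragGroup`),
`Pool/Agent/Y453/HB/Stm.lean` and `Pool/Agent/J6H96/SI/Defs.lean`.
`HamHomeo n` is the group of the compactly supported Hamiltonian homeomorphisms of the open unit ball
of `ℝ^{2n}` (the same as in the frozen statement S13311). It has a smallest nontrivial normal subgroup
`S`, which is a simple group (`SmallestNormalSubgroup.lean`).

Theorem: `S` has no proper subgroup of index less than the continuum, that is, it does not act
nontrivially on a set with fewer than continuum many elements. Therefore `S` is not only contained in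
all nontrivial normal subgroups of `HamHomeo n`, it is contained in all subgroups of index less than
the continuum and in all nontrivial subgroups with fewer than continuum many conjugates. It follows
that `HamHomeo n` is simple if and only if it is generated by the conjugates of its elements with
small supports and has no proper subgroup of index less than the continuum; equivalently no nontrivial
action on a countable set; equivalently no proper normal subgroup of countable index.

Proof. Let `H` be a subgroup of `S` of index less than the continuum. In a product of groups `M_j`,
`j = 0, 1, 2, …`, a subgroup of index less than the continuum contains, in some `M_j`, many
commutators (`Pool/Agent/J6H96/SI/Alg.lean`; the method of Dixon, Neumann and Thomas for the infinite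
symmetric group). The infinite products of Hamiltonian homeomorphisms supported in disjoint sets
converging to a point are Hamiltonian homeomorphisms, and the infinite products of commutators are
in `S`. It follows that for every point `p` the balls `D` near `p`, not containing `p`, are good: `H`
contains the double commutators `[[f₁, f₂], [g₁, g₂]]` of the elements supported in `D`. Among
continuum many elements of `S` which are different translations near `p` there are two in the same
coset of `H`; so `H` contains an element which is a small translation near `p`, and the small balls
around `p` are good. By compactness all balls of one radius `r` and centre in the ball of radius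
`1 / 2` are good (`Pt.lean`). A group which contains the double commutators of the Hamiltonian
diffeomorphisms supported in the balls of radius `r` contains one nontrivial element `y` which does
not depend on `r` (by fragmentation of smooth Hamiltonian diffeomorphisms, `Loc.lean`). So the
intersection of the subgroups of `S` of index less than the continuum is not trivial; it is normal
in `HamHomeo n`, therefore it is `S`.
-/

set_option autoImplicit false


namespace Pool.Agent.Results.MP_68f289_gt.SmallIndexSubgroups

open Pool.Agent.R773.HN (HamHomeo FragGroup)
open Pool.Agent.J6H96.SI (SmallIndexCore SimpleCriteria SubgroupCriteria)

/-- Let `n ≥ 1`. The group `HamHomeo n` of the compactly supported Hamiltonian homeomorphisms of the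
open unit ball of `ℝ^{2n}` has a normal subgroup `S`, a simple group, contained in every nontrivial
normal subgroup, such that

* (`SmallIndexCore`) every subgroup of `S` of index less than the continuum is `S`; every action of
  `S` on a set with fewer than continuum many elements is trivial; every subgroup of `HamHomeo n` of
  index less than the continuum contains `S`; every nontrivial subgroup `N` of `HamHomeo n` with
  fewer than continuum many conjugates contains `S`;
* (`SimpleCriteria`) for `0 < ε ≤ 1 / 100`, `F` the normal subgroup generated by the elements
  supported in balls of radius at most `ε`, the following are equivalent: `HamHomeo n` is simple;
  every subgroup with fewer than continuum many conjugates is trivial or the whole group;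
  `F = HamHomeo n` and `HamHomeo n` has no proper subgroup of index less than the continuum;
  `F = HamHomeo n` and every action of `HamHomeo n` on a countable set is trivial;
  `F = HamHomeo n` and there is no proper normal subgroup of countable index;
* (`SubgroupCriteria`) the following are equivalent: `F` is simple; `F = S`; `F` has no proper
  subgroup of index less than the continuum; every action of `F` on a countable set is trivial; `F`
  has no proper normal subgroup of countable index. -/
theorem result (n : ℕ) (hn : 0 < n) :
    ∃ S : Subgroup (HamHomeo n), S.Normal ∧ IsSimpleGroup S ∧
      (∀ N : Subgroup (HamHomeo n), N.Normal → N ≠ ⊥ → S ≤ N) ∧ SmallIndexCore S ∧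
      ∀ ε : ℝ, 0 < ε → ε ≤ 1 / 100 →
        SimpleCriteria (FragGroup (HamHomeo n) ε) ∧
        SubgroupCriteria (FragGroup (HamHomeo n) ε) S :=
  Pool.Agent.J6H96.SI.main n hn

end Pool.Agent.Results.MP_68f289_gt.SmallIndexSubgroups
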