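import Pool.Agent.J6H96.SI.Main2

/-!
# Subadditive functions on the group of Hamiltonian homeomorphisms of the ball

`HamGroup n` is the group of the compactly supported Hamiltonian homeomorphisms of the open unit ball
of `ℝ^{2n}` (definitions in `HomogeneousQuasimorphisms.lean`, the same as in the frozen statement
S13311). The conditions of the theorem are defined in `Pool/Agent/J6H96/SI/Pub2.lean`,
`Pool/Agent/J6H85/LR/Pub.lean` and `Pool/Agent/J6H85/ZO/Pub.lean`.

A function `ν` on a group is subadditive if `ν(gh) ≤ ν(g) + ν(h)`; no continuity or invariance is
assumed. Such functions are obtained, for example, from the actions of the group by isometries on
metric spaces (`ν(g)` is the distance of `g x` and `x`). We show that (non)simplicity of the group is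
detected by them: the group is simple if and only if it has the fragmentation property and all
subadditive functions are bounded near the identity of the groups `G_K` of the uniform limits of
Hamiltonian diffeomorphisms supported in `K`; it is enough to have bounds on the groups `Sh n t` of
the Hamiltonian homeomorphisms of very small concentric balls. There are similar equivalences for the
homomorphisms to separable groups: the group is simple if and only if it has the fragmentation
property and every homomorphism to a separable group maps the elements with small supports close to
the identity.

Proof. (a) Let `X_k` be an increasing sequence of symmetric sets which covers the smallest normal
subgroup `S` (for example, `ν ≤ k`), or one symmetric set which contains a quotient of two members of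
every Cantor family of elements of `S`. An argument with infinite products of elements supported in
disjoint balls tending to a point shows that all double commutators of elements supported in one of
the balls are products of at most 12 elements of some `X_k`. With a translation which is also in
`X_k` this is shown for the balls centred at the point. (b) If bounded fragmentation holds then the
elements of `Sh n s` are products of 8 double commutators of elements of `Sh n t`, hence products of
96 elements of `X_k`; the same is true for their conjugates by elements close to the identity.
(c) If fragmentation holds too, the group is the union of an increasing sequence of sets of products
of conjugates `c v x v⁻¹ c⁻¹`, where `x ∈ Sh n s`, `c` runs through a countable dense set and `v`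
through a nonempty open subset of `G_K` in which `{ν ≤ m}` is dense for some `m`; these sets are
analytic, so by the lemma of Pettis one of them contains a neighbourhood of the identity, and `ν` is
bounded on them, since `v = w y` with `ν(w) ≤ m` and `y` close to the identity. (d) Conversely, if
`Sh n t` is not contained in the commutator subgroup for all `t` then its image in the
abelianization is uncountable (by the zero-one law of `BaireZeroOneLaw.lean`). There is a
homomorphism from the abelianization to a countable divisible group such that the images of all
`Sh n t` are infinite; on a countable group there is a subadditive function with finite sublevel
sets.
-/

set_option autoImplicit false

namespace Pool.Agent.Results.MP_68f289_gt.SubadditiveFunctions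

open Pool.Agent.J6H96.Sub
open Pool.Agent.J6H85.Frag (BoundedFragmentation Fragmentation)
open Pool.Agent.Results.MP_68f289_gt.HomogeneousQuasimorphisms (HamGroup)

/-- Let `n ≥ 1` and let `G = HamGroup n` be the group of compactly supported Hamiltonian
homeomorphisms of the open unit ball of `ℝ^{2n}`.

(1) The following are equivalent: bounded fragmentation (which is equivalent to the simplicity of the
normal closure of some `Sh n t`, see `BoundedFragmentation.lean`); every subadditive function on `G`
is bounded above on some `Sh n t`; every homomorphism from `G` to a narrow (for example, separable)
topological group maps some `Sh n t` to a given neighbourhood of the identity; every homomorphism
from `G` to a countable group is trivial on some `Sh n t`.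

(2) `G` is simple if and only if it has fragmentation and every subadditive function on `G` is
bounded above near the identity in every `G_K`.

(3), (4) `G` is simple if and only if it has fragmentation and one of the conditions in (1).

(5) If every subadditive function on `G` is locally bounded above then `G` is perfect.

(6) `G` has a normal subgroup `S` which is simple and contained in all nontrivial normal subgroups
of `G` such that for every point `p` of the ball: every subadditive function on `S` is bounded above
on the double commutators of the Hamiltonian homeomorphisms of a ball centred at `p`; every
homomorphism from `S` to a narrow topological group maps the double commutators of the Hamiltonian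
homeomorphisms of a ball centred at `p` to a given neighbourhood of the identity. -/
theorem result (n : ℕ) (hn : 0 < n) :
    List.TFAE [BoundedFragmentation n, BoundedOnSmall n, SmallImages n, CountableImages n] ∧
    (IsSimpleGroup (HamGroup n) ↔ AllLocallyBounded n ∧ Fragmentation n) ∧
    (IsSimpleGroup (HamGroup n) ↔ BoundedOnSmall n ∧ Fragmentation n) ∧
    (IsSimpleGroup (HamGroup n) ↔ SmallImages n ∧ Fragmentation n) ∧
    (AllLocallyBounded n → commutator (HamGroup n) = ⊤) ∧
    ∃ S : Subgroup (HamGroup n), S.Normal ∧ IsSimpleGroup S ∧
      (∀ N : Subgroup (HamGroup n), N.Normal → N ≠ ⊥ → S ≤ N) ∧ CoreBounded S ∧ CoreSmall S :=
  main n hn

end Pool.Agent.Results.MP_68f289_gt.SubadditiveFunctions
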